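import Pool.Agent.TH293.APP.Main

/-!
# `p`-adic strong four exponentials: additive pairs `x`, `1 - x`

Let `t` be a transcendental element of the algebraic closure of `ℚ_p` and let `V` be any rational
vector space of linear forms, with algebraic coefficients, in `1` and `p`-adic logarithms of algebraic
numbers.  We consider the rational numbers `x` in `(0, 1/2)` such that `x` and `1 - x` are `p`-adic
units and `t log_p x`, `t log_p (1 - x)` lie in `V`; for each of them the matrix with the rows
`(log_p x, log_p (1 - x))` and `(t log_p x, t log_p (1 - x))` violates the `p`-adic strong four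
exponentials conjecture.  There is at most one such `x`, or these `x` are exactly `1/3`, `1/4`, `1/9`.
-/

set_option autoImplicit false

namespace Pool.Agent.Results.MP_dd0d16_nt.AdditivePairs

/-- `L` is the Iwasawa `p`-adic logarithm on the algebraic closure of `ℚ_p`. -/
def IsIwasawaLog (p : ℕ) [Fact p.Prime] (L : PadicAlgCl p → PadicAlgCl p) : Prop :=
  (∀ x y : PadicAlgCl p, x ≠ 0 → y ≠ 0 → L (x * y) = L x + L y) ∧
  L ((p : ℕ) : PadicAlgCl p) = 0 ∧
  ∀ z : PadicAlgCl p, ‖z‖ < 1 →
    HasSum (fun n : ℕ => (-1 : PadicAlgCl p) ^ n * z ^ (n + 1) / ((n : PadicAlgCl p) + 1))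
      (L (1 + z))

/-- The linear combinations, with algebraic coefficients, of `1` and of the values of `L` at nonzero
algebraic numbers. -/
noncomputable def LogForms (p : ℕ) [Fact p.Prime] (L : PadicAlgCl p → PadicAlgCl p) :
    Submodule (algebraicClosure ℚ (PadicAlgCl p)) (PadicAlgCl p) :=
  Submodule.span (algebraicClosure ℚ (PadicAlgCl p))
    ({1} ∪ {z | ∃ α : PadicAlgCl p, α ≠ 0 ∧ IsAlgebraic ℚ α ∧ z = L α})

/-- The rational numbers `x` in `(0, 1/2)` such that `x` and `1 - x` are `p`-adic units and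
`t L(x)`, `t L(1 - x)` lie in `V`. -/
def Pairs {p : ℕ} [Fact p.Prime] (L : PadicAlgCl p → PadicAlgCl p) (V : Set (PadicAlgCl p))
    (t : PadicAlgCl p) : Set ℚ :=
  {x : ℚ | 0 < x ∧ x < 1 / 2 ∧ padicValRat p x = 0 ∧ padicValRat p (1 - x) = 0 ∧
    t * L (x : PadicAlgCl p) ∈ V ∧ t * L ((1 - x : ℚ) : PadicAlgCl p) ∈ V}

/-- The matrix `M` violates the `p`-adic strong four exponentials conjecture. -/
def Violates {p : ℕ} [Fact p.Prime] (L : PadicAlgCl p → PadicAlgCl p)
    (M : Matrix (Fin 2) (Fin 2) (PadicAlgCl p)) : Prop :=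
  (∀ i j, M i j ∈ LogForms p L) ∧
    LinearIndependent (algebraicClosure ℚ (PadicAlgCl p)) (fun i j => M i j) ∧
    LinearIndependent (algebraicClosure ℚ (PadicAlgCl p)) (fun j i => M i j) ∧ M.det = 0

/-- **Main result.** -/
theorem result (p : ℕ) [Fact p.Prime] (L : PadicAlgCl p → PadicAlgCl p) (hL : IsIwasawaLog p L)
    (t : PadicAlgCl p) (ht : Transcendental ℚ t) (V : Submodule ℚ (PadicAlgCl p))
    (hV : ∀ z ∈ V, z ∈ LogForms p L) :
    ((Pairs L V t).Subsingleton ∨ Pairs L V t = {1 / 3, 1 / 4, 1 / 9}) ∧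
    ∀ x ∈ Pairs L V t, Violates L !![L (x : PadicAlgCl p), L ((1 - x : ℚ) : PadicAlgCl p);
      t * L (x : PadicAlgCl p), t * L ((1 - x : ℚ) : PadicAlgCl p)] := by
  have hL' : Pool.Agent.W245.PB.IsIwasawaLog p L := ⟨hL.1, hL.2.1, hL.2.2⟩
  refine ⟨Pool.Agent.TH293.APP.dichotomy hL' ht V hV, ?_⟩
  rintro x ⟨h0, h1, u, v, h2, h3⟩
  have hy : 0 < 1 - x := by linarith
  set a : PadicAlgCl p := L (x : PadicAlgCl p) with ha
  set b : PadicAlgCl p := L ((1 - x : ℚ) : PadicAlgCl p) with hb
  -- the two logarithms are independent over the rational numbers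
  have hli : LinearIndependent ℚ
      (fun i => L ((![(x : PadicAlgCl p), ((1 - x : ℚ) : PadicAlgCl p)] : Fin 2 → _) i)) := by
    rw [← LinearIndependent.iff_fractionRing ℤ ℚ, Fintype.linearIndependent_iff]
    intro g hg
    rw [Fin.sum_univ_two] at hg
    simp only [Matrix.cons_val_zero, Matrix.cons_val_one, zsmul_eq_mul] at hg
    have e1 : L ((x ^ g 0 * (1 - x) ^ g 1 : ℚ) : PadicAlgCl p) = 0 := by
      rw [Pool.Agent.TH293.APP.lp_mul hL' (by positivity) (by positivity),
        Pool.Agent.TH293.APP.lp_zpow hL' h0.ne', Pool.Agent.TH293.APP.lp_zpow hL' hy.ne']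
      exact hg
    have e2 : x ^ g 0 * (1 - x) ^ g 1 = 1 :=
      Pool.Agent.TH293.APP.lp_eq_zero hL' (by positivity)
        ((Pool.Agent.TH293.APP.U.zpow h0.ne' u _).mul (by positivity) (by positivity)
          (Pool.Agent.TH293.APP.U.zpow hy.ne' v _)) e1
    obtain ⟨e3, e4⟩ := Pool.Agent.TH293.AP.indep h0 h1 e2
    intro i
    fin_cases i
    · exact e3
    · exact e4
  have hbr : ∀ c d : PadicAlgCl p, IsAlgebraic ℚ c → IsAlgebraic ℚ d → c * a + d * b = 0 →
      c = 0 ∧ d = 0 := by
    intro c d hc hd hcd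
    have := (Pool.Agent.W245.PB.brumer hL'
      (![(x : PadicAlgCl p), ((1 - x : ℚ) : PadicAlgCl p)] : Fin 2 → PadicAlgCl p) (by
        intro i
        fin_cases i
        · simpa using h0.ne'
        · have : ((1 - x : ℚ) : PadicAlgCl p) ≠ 0 := by exact_mod_cast hy.ne'
          simpa using this) (by
        intro i
        fin_cases i
        · exact isAlgebraic_algebraMap x
        · exact isAlgebraic_algebraMap (1 - x)) hli 0 isAlgebraic_zero ![c, d] (by
        intro i
        fin_cases i
        · exact hc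
        · exact hd) (by
        rw [zero_add, Fin.sum_univ_two]
        exact hcd)).2
    exact ⟨this 0, this 1⟩
  have ha0 : a ≠ 0 := by
    intro h
    have := (hbr 1 0 isAlgebraic_one isAlgebraic_zero (by rw [h]; ring)).1
    exact one_ne_zero this
  have halg : ∀ s : algebraicClosure ℚ (PadicAlgCl p), IsAlgebraic ℚ
      (algebraMap (algebraicClosure ℚ (PadicAlgCl p)) (PadicAlgCl p) s) := fun s =>
    mem_algebraicClosure_iff.1 s.2
  have hinj : ∀ s : algebraicClosure ℚ (PadicAlgCl p),
      algebraMap (algebraicClosure ℚ (PadicAlgCl p)) (PadicAlgCl p) s = 0 → s = 0 := fun s hs =>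
    (map_eq_zero _).1 hs
  refine ⟨?_, ?_, ?_, ?_⟩
  · intro i j
    fin_cases i <;> fin_cases j
    · exact Submodule.subset_span (Or.inr ⟨x, by exact_mod_cast h0.ne', isAlgebraic_algebraMap x, rfl⟩)
    · exact Submodule.subset_span (Or.inr ⟨((1 - x : ℚ) : PadicAlgCl p), by exact_mod_cast hy.ne',
        isAlgebraic_algebraMap (1 - x), rfl⟩)
    · exact hV _ h2
    · exact hV _ h3
  · rw [Fintype.linearIndependent_iff]
    intro g hg
    have g0 := congrFun hg 0
    rw [Finset.sum_apply, Fin.sum_univ_two] at g0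
    simp only [Pi.smul_apply, Algebra.smul_def, Pi.zero_apply, Matrix.of_apply,
      Matrix.cons_val_zero, Matrix.cons_val_one] at g0
    have g1 : (algebraMap (algebraicClosure ℚ (PadicAlgCl p)) (PadicAlgCl p) (g 0) +
        algebraMap (algebraicClosure ℚ (PadicAlgCl p)) (PadicAlgCl p) (g 1) * t) * a = 0 := by
      linear_combination g0
    have g2 := (mul_eq_zero.1 g1).resolve_right ha0
    have g3 : algebraMap (algebraicClosure ℚ (PadicAlgCl p)) (PadicAlgCl p) (g 1) = 0 := by
      by_contra hne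
      apply ht
      have e : t = -(algebraMap (algebraicClosure ℚ (PadicAlgCl p)) (PadicAlgCl p) (g 0)) *
          (algebraMap (algebraicClosure ℚ (PadicAlgCl p)) (PadicAlgCl p) (g 1))⁻¹ := by
        field_simp
        linear_combination g2
      rw [e]
      exact (halg _).neg.mul (halg _).inv
    rw [g3, zero_mul, add_zero] at g2
    intro i
    fin_cases i
    · exact hinj _ g2
    · exact hinj _ g3
  · rw [Fintype.linearIndependent_iff]
    intro g hg
    have g0 := congrFun hg 0
    rw [Finset.sum_apply, Fin.sum_univ_two] at g0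
    simp only [Pi.smul_apply, Algebra.smul_def, Pi.zero_apply, Matrix.of_apply,
      Matrix.cons_val_zero, Matrix.cons_val_one] at g0
    obtain ⟨g1, g2⟩ := hbr _ _ (halg (g 0)) (halg (g 1)) g0
    intro i
    fin_cases i
    · exact hinj _ g1
    · exact hinj _ g2
  · rw [Matrix.det_fin_two]
    simp only [Matrix.of_apply, Matrix.cons_val_zero, Matrix.cons_val_one, Matrix.cons_val',
      Matrix.cons_val_fin_one]
    ring

end Pool.Agent.Results.MP_dd0d16_nt.AdditivePairs
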