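import Pool.Agent.Q244.GD.Mat

/-!
# `p`-adic strong four exponentials: Galois descent for the counterexamples

A counterexample to the `p`-adic strong four exponentials conjecture is a singular `2 × 2` matrix `M`
with entries in the space of linear forms in logarithms whose rows and whose columns are linearly
independent over the field of the algebraic numbers; multiplication from the left and from the right
with invertible matrices with algebraic entries gives counterexamples again.  Let `E` be a field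
between `ℚ_p` and its algebraic closure.  We prove:

(1) If the quotient of the two columns of `M` (or of the two rows) lies in `E`, then there is an
invertible matrix `P` with algebraic entries such that all entries of `P M` (or `M P`) lie in `E`.

(2) Hence there is a counterexample with a quotient in `E` if and only if there is one with all
entries in `E`.

(3) If the quotient `s` of the columns lies in `E` and `t` is the quotient of the rows, then each
conjugate `σ t` of `t` over `E` has the form `(a t + b) / (c t + d)` with algebraic `a`, `b`, `c`, `d`.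

(4) For every counterexample `M` there are invertible `P`, `Q` with algebraic entries such that
the two quotients of `P M Q` generate the same field over `ℚ_p` and this field contains all the
entries of `P M Q`.
-/

set_option autoImplicit false

namespace Pool.Agent.Results.MP_dd0d16_nt.GaloisDescent

open IntermediateField

/-- `L` is the Iwasawa `p`-adic logarithm on the algebraic closure of `ℚ_p`. -/
def IsIwasawaLog (p : ℕ) [Fact p.Prime] (L : PadicAlgCl p → PadicAlgCl p) : Prop :=
  (∀ x y : PadicAlgCl p, x ≠ 0 → y ≠ 0 → L (x * y) = L x + L y) ∧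
  L ((p : ℕ) : PadicAlgCl p) = 0 ∧
  ∀ z : PadicAlgCl p, ‖z‖ < 1 →
    HasSum (fun n : ℕ => (-1 : PadicAlgCl p) ^ n * z ^ (n + 1) / ((n : PadicAlgCl p) + 1))
      (L (1 + z))

/-- The algebraic numbers. -/
noncomputable abbrev Qb (p : ℕ) [Fact p.Prime] : IntermediateField ℚ (PadicAlgCl p) :=
  algebraicClosure ℚ (PadicAlgCl p)

/-- The linear combinations, with algebraic coefficients, of `1` and of the values of `L` at nonzero
algebraic numbers. -/
noncomputable def LogForms (p : ℕ) [Fact p.Prime] (L : PadicAlgCl p → PadicAlgCl p) :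
    Submodule (Qb p) (PadicAlgCl p) :=
  Submodule.span (Qb p) ({1} ∪ {z | ∃ α : PadicAlgCl p, α ≠ 0 ∧ IsAlgebraic ℚ α ∧ z = L α})

/-- `M` is a counterexample to the `p`-adic strong four exponentials conjecture. -/
def Counterexample {p : ℕ} [Fact p.Prime] (L : PadicAlgCl p → PadicAlgCl p)
    (M : Matrix (Fin 2) (Fin 2) (PadicAlgCl p)) : Prop :=
  (∀ i j, M i j ∈ LogForms p L) ∧
  LinearIndependent (Qb p) (fun i : Fin 2 => fun j : Fin 2 => M i j) ∧
  LinearIndependent (Qb p) (fun j : Fin 2 => fun i : Fin 2 => M i j) ∧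
  M.det = 0

/-- The second column of `M` is `s` times the first one. -/
def ColumnQuotient {p : ℕ} [Fact p.Prime] (s : PadicAlgCl p)
    (M : Matrix (Fin 2) (Fin 2) (PadicAlgCl p)) : Prop := ∀ i, M i 1 = s * M i 0

/-- The second row of `M` is `t` times the first one. -/
def RowQuotient {p : ℕ} [Fact p.Prime] (t : PadicAlgCl p)
    (M : Matrix (Fin 2) (Fin 2) (PadicAlgCl p)) : Prop := ∀ j, M 1 j = t * M 0 j

/-- The matrix `P` with algebraic entries as a matrix over the algebraic closure of `ℚ_p`. -/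
noncomputable def mat {p : ℕ} [Fact p.Prime] (P : Matrix (Fin 2) (Fin 2) (Qb p)) :
    Matrix (Fin 2) (Fin 2) (PadicAlgCl p) := P.map (algebraMap (Qb p) (PadicAlgCl p))

section aux

variable {p : ℕ} [hp : Fact p.Prime] {L : PadicAlgCl p → PadicAlgCl p}

open Pool.Agent.Q244.GD

private theorem toCE {M : Matrix (Fin 2) (Fin 2) (PadicAlgCl p)} (h : Counterexample L M) :
    CE L M := by
  obtain ⟨h1, h2, h3, h4⟩ := h
  refine ⟨h1, ?_, ?_, ?_⟩
  · intro a b hab
    rw [Fintype.linearIndependent_iff] at h2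
    have := h2 ![a, b] (by
      funext j
      rw [Fin.sum_univ_two]
      simp only [Pi.add_apply, Pi.smul_apply, Matrix.cons_val_zero, Matrix.cons_val_one,
        smul_eq', Pi.zero_apply]
      exact hab j)
    exact ⟨this 0, this 1⟩
  · intro a b hab
    rw [Fintype.linearIndependent_iff] at h3
    have := h3 ![a, b] (by
      funext j
      rw [Fin.sum_univ_two]
      simp only [Pi.add_apply, Pi.smul_apply, Matrix.cons_val_zero, Matrix.cons_val_one,
        smul_eq', Pi.zero_apply]
      exact hab j)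
    exact ⟨this 0, this 1⟩
  · rw [Matrix.det_fin_two] at h4
    linear_combination h4

private theorem ofCE {M : Matrix (Fin 2) (Fin 2) (PadicAlgCl p)} (h : CE L M) :
    Counterexample L M := by
  refine ⟨h.mem, ?_, ?_, ?_⟩
  · rw [Fintype.linearIndependent_iff]
    intro g hg
    have := h.rows (g 0) (g 1) (by
      intro j
      have := congrFun hg j
      rw [Fin.sum_univ_two] at this
      simpa only [Pi.add_apply, Pi.smul_apply, smul_eq', Pi.zero_apply] using this)
    exact Fin.forall_fin_two.2 this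
  · rw [Fintype.linearIndependent_iff]
    intro g hg
    have := h.cols (g 0) (g 1) (by
      intro j
      have := congrFun hg j
      rw [Fin.sum_univ_two] at this
      simpa only [Pi.add_apply, Pi.smul_apply, smul_eq', Pi.zero_apply] using this)
    exact Fin.forall_fin_two.2 this
  · rw [Matrix.det_fin_two]
    linear_combination h.det

private theorem log' (hL : IsIwasawaLog p L) : Pool.Agent.W245.PB.IsIwasawaLog p L :=
  ⟨hL.1, hL.2.1, hL.2.2⟩

private theorem left (hL : IsIwasawaLog p L) (E : IntermediateField ℚ_[p] (PadicAlgCl p))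
    {M : Matrix (Fin 2) (Fin 2) (PadicAlgCl p)} (h : Counterexample L M) {s : PadicAlgCl p}
    (hs : s ∈ E) (hc : ColumnQuotient s M) : ∃ P : Matrix (Fin 2) (Fin 2) (Qb p), P.det ≠ 0 ∧
      Counterexample L (mat P * M) ∧ ColumnQuotient s (mat P * M) ∧
        ∀ i j, (mat P * M) i j ∈ E := by
  obtain ⟨P, h1, h2, h3⟩ := (toCE h).descent (log' hL) E hs hc
  exact ⟨P, h1, ofCE ((toCE h).lmul P h1), h3, h2⟩

private theorem right (hL : IsIwasawaLog p L) (E : IntermediateField ℚ_[p] (PadicAlgCl p))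
    {M : Matrix (Fin 2) (Fin 2) (PadicAlgCl p)} (h : Counterexample L M) {t : PadicAlgCl p}
    (ht : t ∈ E) (hc : RowQuotient t M) : ∃ P : Matrix (Fin 2) (Fin 2) (Qb p), P.det ≠ 0 ∧
      Counterexample L (M * mat P) ∧ RowQuotient t (M * mat P) ∧
        ∀ i j, (M * mat P) i j ∈ E := by
  obtain ⟨P, h1, h2, h3⟩ := ((toCE h).tr).descent (log' hL) E ht hc
  have h4 : (cm P * M.transpose).transpose = M * mat P.transpose := by
    rw [Matrix.transpose_mul, Matrix.transpose_transpose]
    rfl
  refine ⟨P.transpose, by rwa [Matrix.det_transpose],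
    ofCE ((toCE h).rmul P.transpose (by rwa [Matrix.det_transpose])), ?_, ?_⟩
  · intro j
    rw [← h4]
    exact h3 j
  · intro i j
    rw [← h4]
    exact h2 j i

end aux

/-- **Main result.** -/
theorem result (p : ℕ) [Fact p.Prime] (L : PadicAlgCl p → PadicAlgCl p) (hL : IsIwasawaLog p L) :
    (∀ E : IntermediateField ℚ_[p] (PadicAlgCl p),
      (∀ M, Counterexample L M → ∀ s ∈ E, ColumnQuotient s M →
        ∃ P : Matrix (Fin 2) (Fin 2) (Qb p), P.det ≠ 0 ∧ Counterexample L (mat P * M) ∧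
          ColumnQuotient s (mat P * M) ∧ ∀ i j, (mat P * M) i j ∈ E) ∧
      (∀ M, Counterexample L M → ∀ t ∈ E, RowQuotient t M →
        ∃ P : Matrix (Fin 2) (Fin 2) (Qb p), P.det ≠ 0 ∧ Counterexample L (M * mat P) ∧
          RowQuotient t (M * mat P) ∧ ∀ i j, (M * mat P) i j ∈ E) ∧
      ((∃ M, Counterexample L M ∧ ∃ s ∈ E, ColumnQuotient s M ∨ RowQuotient s M) ↔
        ∃ M, Counterexample L M ∧ ∀ i j, M i j ∈ E) ∧
      (∀ M, Counterexample L M → ∀ s ∈ E, ColumnQuotient s M → ∀ t, RowQuotient t M →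
        ∀ σ : PadicAlgCl p ≃ₐ[E] PadicAlgCl p, ∃ a b c d : Qb p, a * d - b * c ≠ 0 ∧
          σ t * (c * t + d) = a * t + b)) ∧
    ∀ M, Counterexample L M → ∃ (P Q : Matrix (Fin 2) (Fin 2) (Qb p)) (s t : PadicAlgCl p),
      P.det ≠ 0 ∧ Q.det ≠ 0 ∧ Counterexample L (mat P * M * mat Q) ∧
      ColumnQuotient s (mat P * M * mat Q) ∧ RowQuotient t (mat P * M * mat Q) ∧
      ℚ_[p]⟮s⟯ = ℚ_[p]⟮t⟯ ∧ ∀ i j, (mat P * M * mat Q) i j ∈ ℚ_[p]⟮s⟯ := by
  classical
  refine ⟨fun E => ⟨fun M h s hs hc => left hL E h hs hc, fun M h t ht hc => right hL E h ht hc,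
    ⟨?_, ?_⟩, ?_⟩, ?_⟩
  · rintro ⟨M, h, s, hs, hc | hc⟩
    · obtain ⟨P, -, h2, -, h4⟩ := left hL E h hs hc
      exact ⟨_, h2, h4⟩
    · obtain ⟨P, -, h2, -, h4⟩ := right hL E h hs hc
      exact ⟨_, h2, h4⟩
  · rintro ⟨M, h, hE⟩
    refine ⟨M, h, M 0 1 / M 0 0, E.div_mem (hE 0 1) (hE 0 0), Or.inl ?_⟩
    obtain ⟨s, hs⟩ := (toCE h).exists_CQ
    have h0 := (toCE h).ne
    have e : M 0 1 / M 0 0 = s := by
      rw [hs 0]
      field_simp
    rw [e]
    exact hs
  · intro M h s hs hc t ht σ
    exact (toCE h).conj (log' hL) hc ht (σ.restrictScalars ℚ_[p]) (σ.commutes ⟨s, hs⟩)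
  · intro M h
    -- the degrees of the quotients of the equivalent matrices
    let D : ℕ → Prop := fun n => ∃ (P Q : Matrix (Fin 2) (Fin 2) (Qb p)) (s : PadicAlgCl p),
      P.det ≠ 0 ∧ Q.det ≠ 0 ∧ Counterexample L (mat P * M * mat Q) ∧
      (ColumnQuotient s (mat P * M * mat Q) ∨ RowQuotient s (mat P * M * mat Q)) ∧
      Module.finrank ℚ_[p] ℚ_[p]⟮s⟯ = n
    have hone : mat (1 : Matrix (Fin 2) (Fin 2) (Qb p)) = 1 := by
      unfold mat
      exact Matrix.map_one _ (map_zero _) (map_one _)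
    have hmul : ∀ A B : Matrix (Fin 2) (Fin 2) (Qb p), mat (A * B) = mat A * mat B := fun A B =>
      Matrix.map_mul (f := algebraMap (Qb p) (PadicAlgCl p))
    have hD : ∃ n, D n := by
      obtain ⟨s, hs⟩ := (toCE h).exists_CQ
      refine ⟨_, 1, 1, s, ?_, ?_, ?_, ?_, rfl⟩
      · rw [Matrix.det_one]; exact one_ne_zero
      · rw [Matrix.det_one]; exact one_ne_zero
      · rw [hone, Matrix.one_mul, Matrix.mul_one]; exact h
      · rw [hone, Matrix.one_mul, Matrix.mul_one]; exact Or.inl hs
    obtain ⟨P, Q, s, hP, hQ, hM, hs, hn⟩ := Nat.find_spec hD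
    have hmin : ∀ (P Q : Matrix (Fin 2) (Fin 2) (Qb p)) (s' : PadicAlgCl p),
        P.det ≠ 0 → Q.det ≠ 0 → Counterexample L (mat P * M * mat Q) →
        (ColumnQuotient s' (mat P * M * mat Q) ∨ RowQuotient s' (mat P * M * mat Q)) →
        Module.finrank ℚ_[p] ℚ_[p]⟮s⟯ ≤ Module.finrank ℚ_[p] ℚ_[p]⟮s'⟯ := by
      intro P' Q' s' h1 h2 h3 h4
      rw [hn]
      exact Nat.find_min' hD ⟨P', Q', s', h1, h2, h3, h4, rfl⟩
    have hfin : ∀ x : PadicAlgCl p, FiniteDimensional ℚ_[p] ℚ_[p]⟮x⟯ := fun x =>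
      IntermediateField.adjoin.finiteDimensional (Algebra.IsIntegral.isIntegral x)
    have hs0 : s ∈ ℚ_[p]⟮s⟯ := IntermediateField.mem_adjoin_simple_self _ _
    have hq : ∀ {N : Matrix (Fin 2) (Fin 2) (PadicAlgCl p)} {E : IntermediateField ℚ_[p]
        (PadicAlgCl p)} {x : PadicAlgCl p}, Counterexample L N → (∀ i j, N i j ∈ E) →
        (ColumnQuotient x N ∨ RowQuotient x N) → x ∈ E := by
      intro N E x hN hE hx
      have h0 := (toCE hN).ne
      rcases hx with hx | hx
      · have e : x = N 0 1 / N 0 0 := by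
          rw [hx 0]
          field_simp
        rw [e]
        exact E.div_mem (hE _ _) (hE _ _)
      · have e : x = N 1 0 / N 0 0 := by
          rw [hx 0]
          field_simp
        rw [e]
        exact E.div_mem (hE _ _) (hE _ _)
    rcases hs with hs | hs
    · obtain ⟨P', h1, h2, h3, h4⟩ := left hL ℚ_[p]⟮s⟯ hM hs0 hs
      have e : mat P' * (mat P * M * mat Q) = mat (P' * P) * M * mat Q := by
        rw [hmul]
        simp only [Matrix.mul_assoc]
      rw [e] at h2 h3 h4
      obtain ⟨t, ht⟩ := (toCE h2).exists_RQ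
      have hdet : (P' * P).det ≠ 0 := by
        rw [Matrix.det_mul]
        exact mul_ne_zero h1 hP
      have ht1 : t ∈ ℚ_[p]⟮s⟯ := hq h2 h4 (Or.inr ht)
      have hle : ℚ_[p]⟮t⟯ ≤ ℚ_[p]⟮s⟯ := by
        rw [IntermediateField.adjoin_simple_le_iff]
        exact ht1
      have heq : ℚ_[p]⟮t⟯ = ℚ_[p]⟮s⟯ :=
        IntermediateField.eq_of_le_of_finrank_le hle (hmin _ _ t hdet hQ h2 (Or.inr ht))
      exact ⟨P' * P, Q, s, t, hdet, hQ, h2, h3, ht, heq.symm, h4⟩
    · obtain ⟨Q', h1, h2, h3, h4⟩ := right hL ℚ_[p]⟮s⟯ hM hs0 hs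
      have e : mat P * M * mat Q * mat Q' = mat P * M * mat (Q * Q') := by
        rw [hmul]
        simp only [Matrix.mul_assoc]
      rw [e] at h2 h3 h4
      obtain ⟨t, ht⟩ := (toCE h2).exists_CQ
      have hdet : (Q * Q').det ≠ 0 := by
        rw [Matrix.det_mul]
        exact mul_ne_zero hQ h1
      have ht1 : t ∈ ℚ_[p]⟮s⟯ := hq h2 h4 (Or.inl ht)
      have hle : ℚ_[p]⟮t⟯ ≤ ℚ_[p]⟮s⟯ := by
        rw [IntermediateField.adjoin_simple_le_iff]
        exact ht1
      have heq : ℚ_[p]⟮t⟯ = ℚ_[p]⟮s⟯ :=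
        IntermediateField.eq_of_le_of_finrank_le hle (hmin _ _ t hP hdet h2 (Or.inl ht))
      refine ⟨P, Q * Q', t, s, hP, hdet, h2, ht, h3, heq, ?_⟩
      rw [heq]
      exact h4

end Pool.Agent.Results.MP_dd0d16_nt.GaloisDescent
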