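import Pool.Agent.Q244.OC.Abs
import Pool.Agent.Y787.PFour

/-!
# `p`-adic strong four exponentials: the counterexamples with one row or column in a given space

A counterexample to the `p`-adic strong four exponentials conjecture is a singular `2 × 2` matrix with
entries in the infinite dimensional space of all linear forms in logarithms, whose rows and whose
columns are linearly independent over the algebraic numbers.  Let `V` be a space of such linear forms of
finite dimension `n`.  We consider the counterexamples with one row or one column in `V`; the other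
entries are arbitrary.  We prove:

(1) There is one space `V'` of dimension at most `n + n² (n - 1) / 2` which contains all the entries of
all these counterexamples.

(2) If `λ_1, ..., λ_9` in `V` are linearly independent, there is a polynomial `Δ ≠ 0` in nine variables
such that for `Δ(b) ≠ 0` no counterexample with one row or one column in `V` has the entry
`b_1 λ_1 + ... + b_9 λ_9`.
-/

set_option autoImplicit false

namespace Pool.Agent.Results.MP_dd0d16_nt.OneLineGiven

open Module

/-- `L` is the Iwasawa `p`-adic logarithm on the algebraic closure of `ℚ_p`. -/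
def IsIwasawaLog (p : ℕ) [Fact p.Prime] (L : PadicAlgCl p → PadicAlgCl p) : Prop :=
  (∀ x y : PadicAlgCl p, x ≠ 0 → y ≠ 0 → L (x * y) = L x + L y) ∧
  L ((p : ℕ) : PadicAlgCl p) = 0 ∧
  ∀ z : PadicAlgCl p, ‖z‖ < 1 →
    HasSum (fun n : ℕ => (-1 : PadicAlgCl p) ^ n * z ^ (n + 1) / ((n : PadicAlgCl p) + 1))
      (L (1 + z))

/-- The algebraic numbers. -/
noncomputable abbrev Qb (p : ℕ) [Fact p.Prime] : IntermediateField ℚ (PadicAlgCl p) :=
  algebraicClosure ℚ (PadicAlgCl p)

/-- The linear combinations, with algebraic coefficients, of `1` and of the values of `L` at nonzero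
algebraic numbers. -/
noncomputable def LogForms (p : ℕ) [Fact p.Prime] (L : PadicAlgCl p → PadicAlgCl p) :
    Submodule (Qb p) (PadicAlgCl p) :=
  Submodule.span (Qb p) ({1} ∪ {z | ∃ α : PadicAlgCl p, α ≠ 0 ∧ IsAlgebraic ℚ α ∧ z = L α})

/-- `M` is a counterexample to the `p`-adic strong four exponentials conjecture. -/
def Counterexample {p : ℕ} [Fact p.Prime] (L : PadicAlgCl p → PadicAlgCl p)
    (M : Matrix (Fin 2) (Fin 2) (PadicAlgCl p)) : Prop :=
  (∀ i j, M i j ∈ LogForms p L) ∧
  LinearIndependent (Qb p) (fun i : Fin 2 => fun j : Fin 2 => M i j) ∧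
  LinearIndependent (Qb p) (fun j : Fin 2 => fun i : Fin 2 => M i j) ∧
  M.det = 0

/-- One row or one column of `M` has its entries in `V`. -/
def LineIn {p : ℕ} [Fact p.Prime] (V : Submodule (Qb p) (PadicAlgCl p))
    (M : Matrix (Fin 2) (Fin 2) (PadicAlgCl p)) : Prop :=
  (∃ i, ∀ j, M i j ∈ V) ∨ ∃ j, ∀ i, M i j ∈ V

/-- One space `V'` of dimension at most `n + n² (n - 1) / 2`, `n = dim V`, contains all the entries of
all counterexamples with one row or one column in `V`. -/
def Confined {p : ℕ} [Fact p.Prime] (L : PadicAlgCl p → PadicAlgCl p)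
    (V : Submodule (Qb p) (PadicAlgCl p)) : Prop :=
  ∃ V' : Submodule (Qb p) (PadicAlgCl p), V ≤ V' ∧ V' ≤ LogForms p L ∧
    FiniteDimensional (Qb p) V' ∧
    finrank (Qb p) V' ≤
      finrank (Qb p) V + finrank (Qb p) V * (finrank (Qb p) V * (finrank (Qb p) V - 1) / 2) ∧
    ∀ M, Counterexample L M → LineIn V M → ∀ i j, M i j ∈ V'

/-- The number `b_1 l_1 + ... + b_9 l_9`. -/
noncomputable def comb {p : ℕ} [Fact p.Prime] {V : Submodule (Qb p) (PadicAlgCl p)}
    (l : Fin 9 → V) (b : Fin 9 → Qb p) : PadicAlgCl p :=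
  ∑ k, (b k : PadicAlgCl p) * (l k : PadicAlgCl p)

/-- For linearly independent `l_1, ..., l_9` in `V` the numbers `b_1 l_1 + ... + b_9 l_9` with
`Δ(b) ≠ 0`, where `Δ ≠ 0` is a polynomial, are not entries of counterexamples with one row or one
column in `V`. -/
def GenericEntries {p : ℕ} [Fact p.Prime] (L : PadicAlgCl p → PadicAlgCl p)
    (V : Submodule (Qb p) (PadicAlgCl p)) : Prop :=
  ∀ l : Fin 9 → V, LinearIndependent (Qb p) l →
    ∃ Δ : MvPolynomial (Fin 9) (Qb p), Δ ≠ 0 ∧
      ∀ b : Fin 9 → Qb p, MvPolynomial.eval b Δ ≠ 0 →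
        ∀ M, Counterexample L M → LineIn V M → ∀ i j, M i j ≠ comb l b

section aux

open Pool.Agent.Q244.OC

variable {p : ℕ} [hp : Fact p.Prime] {L : PadicAlgCl p → PadicAlgCl p}

private theorem log' (hL : IsIwasawaLog p L) : Pool.Agent.W245.PB.IsIwasawaLog p L :=
  ⟨hL.1, hL.2.1, hL.2.2⟩

private theorem indep {M : Matrix (Fin 2) (Fin 2) (PadicAlgCl p)} (h : Counterexample L M) :
    (∀ a b : Qb p, (∀ j, a • M 0 j + b • M 1 j = 0) → a = 0 ∧ b = 0) ∧
    (∀ a b : Qb p, (∀ i, a • M i 0 + b • M i 1 = 0) → a = 0 ∧ b = 0) ∧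
      M 0 0 * M 1 1 = M 0 1 * M 1 0 := by
  obtain ⟨-, h2, h3, h4⟩ := h
  refine ⟨?_, ?_, ?_⟩
  · intro a b hab
    rw [Fintype.linearIndependent_iff] at h2
    have := h2 ![a, b] (by
      funext j
      rw [Fin.sum_univ_two]
      exact hab j)
    exact ⟨this 0, this 1⟩
  · intro a b hab
    rw [Fintype.linearIndependent_iff] at h3
    have := h3 ![a, b] (by
      funext j
      rw [Fin.sum_univ_two]
      exact hab j)
    exact ⟨this 0, this 1⟩
  · rw [Matrix.det_fin_two] at h4
    linear_combination h4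

/-- The two entries of a column are independent. -/
private theorem col {M : Matrix (Fin 2) (Fin 2) (PadicAlgCl p)} (h : Counterexample L M)
    (j : Fin 2) (a b : Qb p) (hab : a • M 0 j + b • M 1 j = 0) : a = 0 ∧ b = 0 := by
  obtain ⟨h1, h2, h3⟩ := indep h
  simp only [Algebra.smul_def] at hab h1 h2
  set A := algebraMap (Qb p) (PadicAlgCl p) a
  set B := algebraMap (Qb p) (PadicAlgCl p) b
  -- the other column
  by_cases hj : M 0 j = 0 ∧ M 1 j = 0
  · exfalso
    have h4 : ∀ i, M i j = 0 := Fin.forall_fin_two.2 hj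
    rcases Fin.exists_fin_two.1 ⟨j, rfl⟩ with hj' | hj'
    · subst hj'
      have := (h2 1 0 (by intro i; rw [h4 i]; simp)).1
      exact one_ne_zero this
    · subst hj'
      have := (h2 0 1 (by intro i; rw [h4 i]; simp)).2
      exact one_ne_zero this
  · apply h1 a b
    rcases Fin.exists_fin_two.1 ⟨j, rfl⟩ with hj' | hj'
    · subst hj'
      refine Fin.forall_fin_two.2 ⟨hab, ?_⟩
      have e0 : M 0 0 * (A * M 0 1 + B * M 1 1) = 0 := by linear_combination B * h3 + M 0 1 * hab
      have e1 : M 1 0 * (A * M 0 1 + B * M 1 1) = 0 := by linear_combination (-A) * h3 + M 1 1 * hab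
      by_contra hne
      exact hj ⟨(mul_eq_zero.1 e0).resolve_right hne, (mul_eq_zero.1 e1).resolve_right hne⟩
    · subst hj'
      refine Fin.forall_fin_two.2 ⟨?_, hab⟩
      have e0 : M 0 1 * (A * M 0 0 + B * M 1 0) = 0 := by
        linear_combination (-B) * h3 + M 0 0 * hab
      have e1 : M 1 1 * (A * M 0 0 + B * M 1 0) = 0 := by linear_combination A * h3 + M 1 0 * hab
      by_contra hne
      exact hj ⟨(mul_eq_zero.1 e0).resolve_right hne, (mul_eq_zero.1 e1).resolve_right hne⟩

private theorem tr {M : Matrix (Fin 2) (Fin 2) (PadicAlgCl p)} (h : Counterexample L M) :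
    Counterexample L M.transpose :=
  ⟨fun i j => h.1 j i, h.2.2.1, h.2.1, by rw [Matrix.det_transpose]; exact h.2.2.2⟩

end aux

/-- **Main result.** -/
theorem result (p : ℕ) [Fact p.Prime] (L : PadicAlgCl p → PadicAlgCl p) (hL : IsIwasawaLog p L)
    (V : Submodule (Qb p) (PadicAlgCl p)) [FiniteDimensional (Qb p) V] (hV : V ≤ LogForms p L) :
    Confined L V ∧ GenericEntries L V := by
  classical
  have hL' := log' hL
  obtain ⟨V', h1, h2, h3, h4, h5⟩ := Pool.Agent.Q244.OC.one_column
    (Pool.Agent.W254.PA.hyp_padic hL') V hV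
  have key : ∀ M, Counterexample L M → (∃ j, ∀ i, M i j ∈ V) → ∀ i j, M i j ∈ V' := by
    rintro M h ⟨j, hj⟩
    obtain ⟨-, -, hdet⟩ := indep h
    have hj0 : ∀ i, M i j ∈ V' := fun i => h1 (hj i)
    rcases Fin.exists_fin_two.1 ⟨j, rfl⟩ with hj' | hj'
    · subst hj'
      have h6 := h5 (M 0 0) (hj 0) (M 1 0) (hj 1) (M 0 1) (h.1 0 1) (M 1 1) (h.1 1 1)
        (by rw [hdet]; ring) (fun a b hab => col h 0 a b hab)
      refine fun i => Fin.forall_fin_two.2 ⟨hj0 i, ?_⟩
      exact (Fin.forall_fin_two.2 h6 : ∀ i, M i 1 ∈ V') i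
    · subst hj'
      have h6 := h5 (M 0 1) (hj 0) (M 1 1) (hj 1) (M 0 0) (h.1 0 0) (M 1 0) (h.1 1 0)
        (by rw [← hdet]; ring) (fun a b hab => col h 1 a b hab)
      refine fun i => Fin.forall_fin_two.2 ⟨?_, hj0 i⟩
      exact (Fin.forall_fin_two.2 h6 : ∀ i, M i 0 ∈ V') i
  have key2 : ∀ M, Counterexample L M → LineIn V M → ∀ i j, M i j ∈ V' := by
    rintro M h (⟨i, hi⟩ | hc)
    · intro a b
      exact key M.transpose (tr h) ⟨i, hi⟩ b a
    · exact key M h hc
  refine ⟨⟨V', h1, h2, h3, h4, key2⟩, fun l hl => ?_⟩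
  have hl' : LinearIndependent (Qb p) (fun k => (⟨(l k : PadicAlgCl p), h1 (l k).2⟩ : V')) := by
    have := hl.map' (Submodule.inclusion h1)
      (LinearMap.ker_eq_bot.2 (Submodule.inclusion_injective h1))
    exact this
  obtain ⟨Δ, h6, h7⟩ := Pool.Agent.Y787.genericP hL' V' h2 _ hl'
  refine ⟨Δ, h6, fun b hb M h hline i j hij => ?_⟩
  have hmem := key2 M h hline
  obtain ⟨-, -, hdet⟩ := indep h
  let M' : Matrix (Fin 2) (Fin 2) V' := Matrix.of fun i j => ⟨M i j, hmem i j⟩
  have hC := Pool.Agent.Y787.FE.ctr_of_li (Cc := PadicAlgCl p) M' hdet h.2.1 h.2.2.1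
  refine h7 b hb M' hC i j (Subtype.ext ?_)
  show M i j = _
  rw [hij]
  unfold comb
  push_cast
  refine Finset.sum_congr rfl fun k _ => ?_
  rw [Algebra.smul_def]
  rfl

end Pool.Agent.Results.MP_dd0d16_nt.OneLineGiven
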