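import Pool.Agent.Results.MP_dd0d16_nt.GeneralizedPolynomials
import Pool.Agent.Q319.WN.Weak2

/-!
# Values of generalized polynomials of `p`-adic logarithms in windows at the multiples and the dilates of real numbers

Let `L` be the Iwasawa `p`-adic logarithm, `χ_1, …, χ_m` completely multiplicative functions with `log χ_i(n) = c_i log n`,
with different `c_i`, and `B_1, …, B_m` polynomials over the algebraic closure of `ℚ_p`, not of the trivial form for which
all the numbers `B(n) = ∑ χ_i(n) B_i(log n)` are linear forms in `1` and logarithms of algebraic numbers. The case of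
`a log² n` (`m = 1`, `χ_1 = 1`) is the one of the four exponentials: the determinant of a `2 × 2` matrix with entries
`log a`, `log n`, `log n`, … . We show: for every `δ < 1`,

* for almost every real `y` with `N ^ (1 - θ) ≤ y ≤ 2 N ^ (1 - θ)` (outside a set of measure `N ^ (1 - θ - c)`) and all
  `k ≤ N ^ θ` but at most `C w N ^ θ / log ^ δ N`, for ALL positive integers `n` with `|n - k y| ≤ w` the number `B(n)` is NOT
  a linear form, with algebraic coefficients, in `1` and logarithms of algebraic numbers;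
* if `∑ w_k / log ^ δ v_k` converges then for almost every `α > 0` and all large `k` the same is true for ALL positive
  integers `n` with `|n - α v_k| ≤ w_k`.

The number of exceptions up to `N` is bounded in the starting file `GeneralizedPolynomials` (with the definitions of
`IsIwasawaLog`, `LogForms`, `IsPower`, `Trivial`); the count of the elements of arbitrary sets of integers in windows at
multiples of real numbers is from the starting files, too (`Pool.Agent.H438R2.DL`).
-/

set_option autoImplicit false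

namespace Pool.Agent.Results.MP_dd0d16_nt.WindowsAtRealMultiples

open Polynomial Pool.Agent.Q319.WN Pool.Agent.Results.MP_dd0d16_nt.GeneralizedPolynomials

/-- `x` is positive and `B(x) = ∑ χ_i(x) B_i(log x)` is a linear combination, with algebraic coefficients, of `1` and
logarithms of algebraic numbers. -/
def IsForm (p : ℕ) [Fact p.Prime] (L : PadicAlgCl p → PadicAlgCl p) {m : ℕ} (χ : Fin m → ℕ → PadicAlgCl p)
    (B : Fin m → (PadicAlgCl p)[X]) (x : ℤ) : Prop :=
  0 < x ∧ ∑ i, χ i x.toNat * (B i).eval (L (x.toNat : PadicAlgCl p)) ∈ LogForms p L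

lemma loglog_le (C : ℕ) (δ : ℝ) (hδ : δ < 1) :
    ∃ K : ℝ, 0 < K ∧ ∀ t : ℝ, 1 ≤ t → Real.log t ^ C ≤ K * t ^ (1 - δ) := by
  have hη : 0 < (1 - δ) / (C + 1) := div_pos (by linarith) (by positivity)
  refine ⟨1 / ((1 - δ) / (C + 1)) ^ C, by positivity, fun t ht => ?_⟩
  have h1 : Real.log t ≤ t ^ ((1 - δ) / (C + 1)) / ((1 - δ) / (C + 1)) :=
    Real.log_le_rpow_div (by linarith) hη
  have h2 : 0 ≤ Real.log t := Real.log_nonneg ht
  calc Real.log t ^ C ≤ (t ^ ((1 - δ) / (C + 1)) / ((1 - δ) / (C + 1))) ^ C := pow_le_pow_left₀ h2 h1 _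
    _ = 1 / ((1 - δ) / (C + 1)) ^ C * t ^ ((1 - δ) / (C + 1) * C) := by
        rw [div_pow, Real.rpow_mul (by linarith), Real.rpow_natCast]
        ring
    _ ≤ 1 / ((1 - δ) / (C + 1)) ^ C * t ^ (1 - δ) := by
        apply mul_le_mul_of_nonneg_left _ (by positivity)
        apply Real.rpow_le_rpow_of_exponent_le ht
        rw [div_mul_eq_mul_div, div_le_iff₀ (by positivity)]
        have : (0 : ℝ) ≤ C := Nat.cast_nonneg _
        nlinarith

lemma scarce (p : ℕ) [Fact p.Prime] (L : PadicAlgCl p → PadicAlgCl p) (hL : IsIwasawaLog p L) {m D : ℕ}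
    (c : Fin m → PadicAlgCl p) (hc : Function.Injective c) (χ : Fin m → ℕ → PadicAlgCl p)
    (hχ : ∀ i, IsPower L (c i) (χ i)) (B : Fin m → (PadicAlgCl p)[X]) (hB : ∀ i, (B i).degree < D)
    (hT : ¬ Trivial L c B) (δ : ℝ) (hδ0 : 0 < δ) (hδ : δ < 1) :
    ∃ C : ℝ, Scarce δ C (IsForm p L χ B) := by
  classical
  obtain ⟨C, hC⟩ := GeneralizedPolynomials.result m D
  have h := (hC p L hL c hc χ hχ B hB).2 hT
  obtain ⟨K, hK, hKt⟩ := loglog_le C δ hδ
  refine ⟨C * K + 16, fun X hX => ?_⟩
  have hX3 : (3 : ℝ) ≤ X := by exact_mod_cast hX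
  have hX0 : (0 : ℝ) < X := by linarith
  have hl1 : 1 < Real.log X := by
    have h1 : Real.exp 1 < X := by
      have := Real.exp_one_lt_d9
      linarith
    exact (Real.lt_log_iff_exp_lt hX0).2 h1
  have hlp : 0 < Real.log X ^ (-δ) := Real.rpow_pos_of_pos (by linarith) _
  have hset : {x : ℤ | x.natAbs ≤ X ∧ IsForm p L χ B x} ⊆
      ((((Finset.Icc 1 X).filter fun n : ℕ =>
        ∑ i, χ i n * (B i).eval (L (n : PadicAlgCl p)) ∈ LogForms p L).image (fun n : ℕ => (n : ℤ)) : Finset ℤ) :
        Set ℤ) := by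
    rintro x ⟨h1, h2, h3⟩
    rw [Finset.mem_coe, Finset.mem_image]
    refine ⟨x.toNat, Finset.mem_filter.2 ⟨Finset.mem_Icc.2 ⟨by omega, by omega⟩, h3⟩, by omega⟩
  have h1 := Set.ncard_le_ncard hset (Finset.finite_toSet _)
  rw [Set.ncard_coe_finset] at h1
  have h2 := h1.trans Finset.card_image_le
  by_cases h16 : 16 ≤ X
  · have h3 := h X h16
    have h4 : Real.log (Real.log X) ^ C ≤ K * Real.log X ^ (1 - δ) := hKt _ hl1.le
    calc (({x : ℤ | x.natAbs ≤ X ∧ IsForm p L χ B x}.ncard : ℕ) : ℝ)
        ≤ C * Real.log (Real.log X) ^ C / Real.log X * X := (Nat.cast_le.2 h2).trans h3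
      _ ≤ C * (K * Real.log X ^ (1 - δ)) / Real.log X * X := by gcongr
      _ = C * K * X * Real.log X ^ (-δ) := by
          rw [show (1 - δ : ℝ) = -δ + 1 by ring, Real.rpow_add (by linarith), Real.rpow_one]
          field_simp
      _ ≤ (C * K + 16) * X * Real.log X ^ (-δ) := by
          apply mul_le_mul_of_nonneg_right _ hlp.le
          apply mul_le_mul_of_nonneg_right _ hX0.le
          linarith
  · have h3 : ((Finset.Icc 1 X).filter fun n : ℕ =>
        ∑ i, χ i n * (B i).eval (L (n : PadicAlgCl p)) ∈ LogForms p L).card ≤ X := by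
      refine (Finset.card_filter_le _ _).trans ?_
      simp
    have h4 : (((({x : ℤ | x.natAbs ≤ X ∧ IsForm p L χ B x}.ncard : ℕ) : ℝ))) ≤ X := by
      exact_mod_cast h2.trans h3
    have h5 : Real.log X ≤ 16 := by
      have h6 := Real.log_le_sub_one_of_pos hX0
      have h7 : (X : ℝ) ≤ 16 := by exact_mod_cast (by omega : X ≤ 16)
      linarith
    have h6 : 1 ≤ 16 * Real.log X ^ (-δ) := by
      have h7 : (16 : ℝ) ^ (-(1 : ℝ)) ≤ Real.log X ^ (-δ) := by
        calc (16 : ℝ) ^ (-(1 : ℝ)) ≤ (16 : ℝ) ^ (-δ) :=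
              Real.rpow_le_rpow_of_exponent_le (by norm_num) (by linarith)
          _ ≤ Real.log X ^ (-δ) := Real.rpow_le_rpow_of_nonpos (by linarith) h5 (by linarith)
      have h8 : (16 : ℝ) ^ (-(1 : ℝ)) = 1 / 16 := by
        rw [Real.rpow_neg_one]
        norm_num
      rw [h8] at h7
      linarith
    refine h4.trans ?_
    have hCK : (0 : ℝ) ≤ C * K := mul_nonneg (Nat.cast_nonneg _) hK.le
    calc (X : ℝ) = X * 1 := (mul_one _).symm
      _ ≤ X * (16 * Real.log X ^ (-δ)) := mul_le_mul_of_nonneg_left h6 hX0.le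
      _ = 16 * X * Real.log X ^ (-δ) := by ring
      _ ≤ (C * K + 16) * X * Real.log X ^ (-δ) := by
          apply mul_le_mul_of_nonneg_right _ hlp.le
          apply mul_le_mul_of_nonneg_right _ hX0.le
          linarith

/-- Let `L` be the Iwasawa `p`-adic logarithm, `χ i` completely multiplicative with `log χ_i(n) = c_i log n`, the `c i`
different, and `B i` polynomials over the algebraic closure of `ℚ_p` which are not of the trivial form. For every
`0 < δ < 1` the positive integers `n` for which `∑ χ_i(n) B_i(log n)` is a linear combination, with algebraic coefficients, of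
`1` and logarithms of algebraic numbers are scarce at the multiples and at the dilates of almost all real numbers (see
`ScarceAtMultiples` and `ScarceAtDilates`). -/
theorem result (p : ℕ) [Fact p.Prime] (L : PadicAlgCl p → PadicAlgCl p) (hL : IsIwasawaLog p L) (m D : ℕ)
    (c : Fin m → PadicAlgCl p) (hc : Function.Injective c) (χ : Fin m → ℕ → PadicAlgCl p)
    (hχ : ∀ i, IsPower L (c i) (χ i)) (B : Fin m → (PadicAlgCl p)[X]) (hB : ∀ i, (B i).degree < D)
    (hT : ¬ Trivial L c B) (δ : ℝ) (hδ0 : 0 < δ) (hδ : δ < 1) :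
    ScarceAtMultiples δ (IsForm p L χ B) ∧ ScarceAtDilates δ (IsForm p L χ B) := by
  obtain ⟨C, hC⟩ := scarce p L hL c hc χ hχ B hB hT δ hδ0 hδ
  exact scarce_both hδ0 hC

end Pool.Agent.Results.MP_dd0d16_nt.WindowsAtRealMultiples
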